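import Mathlib

/-!
# Perturbation of infinite dimensional subspaces
-/

set_option autoImplicit false

open Finset Filter Topology

namespace Pool.Agent.Lib_helper25.AD

universe u

variable {X : Type u} [NormedAddCommGroup X] [NormedSpace ℝ X]

/-- a unit vector of an infinite dimensional subspace killed by finitely many functionals -/
theorem own_vec (W : Submodule ℝ X) (hW : ¬ FiniteDimensional ℝ W) (F : Finset (X →ₗ[ℝ] ℝ)) :
    ∃ w ∈ W, ‖w‖ = 1 ∧ ∀ f ∈ F, f w = 0 := by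
  let T : W →ₗ[ℝ] (F → ℝ) := LinearMap.pi fun f => f.1.comp W.subtype
  have hT : ¬ Function.Injective T := fun h => hW (FiniteDimensional.of_injective T h)
  rw [injective_iff_map_eq_zero] at hT
  push Not at hT
  obtain ⟨w, hw, hne⟩ := hT
  have hn : 0 < ‖(w : X)‖ := norm_pos_iff.2 (fun h => hne (Subtype.ext h))
  refine ⟨‖(w : X)‖⁻¹ • (w : X), W.smul_mem _ w.2, ?_, fun f hf => ?_⟩
  · rw [norm_smul, norm_inv, norm_norm, inv_mul_cancel₀ hn.ne']
  · have h1 : f (w : X) = 0 := congrFun hw ⟨f, hf⟩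
    rw [map_smul, h1, smul_zero]

/-- General perturbation lemma: `y k` is chosen with `g (y k)` very close to unit vectors
`w k` of `W` which are in general position. -/
theorem own_pert_gen {ι : Type*} (g : ι → X) (P : ι → Prop) (R : ι → ι → Prop)
    (W : Submodule ℝ X) (η : ℝ) (hη : 0 < η)
    (hstep : ∀ (s : Finset ι) (F : Finset (X →ₗ[ℝ] ℝ)) (ε : ℝ), 0 < ε →
      ∃ (y : ι) (w : X), w ∈ W ∧ ‖w‖ = 1 ∧ (∀ f ∈ F, f w = 0) ∧ P y ∧ (∀ x ∈ s, R x y) ∧
        ‖g y - w‖ ≤ ε) :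
    ∃ (y : ℕ → ι) (w : ℕ → X), (∀ k, P (y k)) ∧ (∀ i j, i < j → R (y i) (y j)) ∧
      (∀ k, w k ∈ W) ∧
      ∀ a : ℕ →₀ ℝ, (a ≠ 0 → 0 < ‖∑ k ∈ a.support, a k • w k‖) ∧
        ‖∑ k ∈ a.support, a k • g (y k) - ∑ k ∈ a.support, a k • w k‖ ≤
          η * ‖∑ k ∈ a.support, a k • w k‖ := by
  classical
  obtain ⟨f, hf1, hf2⟩ := exists_seq_of_forall_finset_exists
    (α := ℕ × ι × X × (X →L[ℝ] ℝ))
    (fun t => P t.2.1 ∧ t.2.2.1 ∈ W ∧ ‖g t.2.1 - t.2.2.1‖ ≤ η * (1 / 4) ^ (t.1 + 1) ∧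
      ‖t.2.2.1‖ = 1 ∧ t.2.2.2 t.2.2.1 = 1 ∧ ‖t.2.2.2‖ ≤ 1)
    (fun s t => s.1 < t.1 ∧ s.2.2.2 t.2.2.1 = 0 ∧ R s.2.1 t.2.1)
    (by
      intro s _
      set m := s.sup (fun t => t.1) + 1 with hm
      have hpos : 0 < η * (1 / 4 : ℝ) ^ (m + 1) := by positivity
      obtain ⟨y, w, hw, hw1, hwF, hPy, hRy, hyw⟩ := hstep (s.image fun t => t.2.1)
        (s.image fun t => (t.2.2.2 : X →ₗ[ℝ] ℝ)) _ hpos
      obtain ⟨g', hg1, hg2⟩ := exists_dual_vector ℝ w (by
        rw [hw1]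
        exact one_ne_zero)
      refine ⟨(m, y, w, g'), ⟨hPy, hw, hyw, hw1, ?_, hg1.le⟩, ?_⟩
      · show g' w = 1
        rw [hg2, hw1]
        simp
      · intro t ht
        refine ⟨?_, hwF _ (Finset.mem_image_of_mem
            (fun t : ℕ × ι × X × (X →L[ℝ] ℝ) => (t.2.2.2 : X →ₗ[ℝ] ℝ)) ht),
          hRy _ (Finset.mem_image_of_mem (fun t : ℕ × ι × X × (X →L[ℝ] ℝ) => t.2.1) ht)⟩
        exact Nat.lt_succ_of_le (Finset.le_sup (f := fun t : ℕ × ι × X × (X →L[ℝ] ℝ) => t.1) ht))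
  have hidx : ∀ k, k ≤ (f k).1 := by
    intro k
    induction k with
    | zero => exact Nat.zero_le _
    | succ k ih => exact Nat.succ_le_of_lt (lt_of_le_of_lt ih (hf2 k (k + 1) (Nat.lt_succ_self k)).1)
  refine ⟨fun k => (f k).2.1, fun k => (f k).2.2.1, fun k => (hf1 k).1,
    fun i j hij => (hf2 i j hij).2.2, fun k => (hf1 k).2.1, ?_⟩
  intro a
  set v : X := ∑ k ∈ a.support, a k • (f k).2.2.1 with hv
  -- coefficients
  have hcoef : ∀ k, |a k| ≤ 2 ^ k * ‖v‖ := by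
    intro k
    induction k using Nat.strong_induction_on with
    | _ k ih =>
      have h1 : (f k).2.2.2 v = ∑ j ∈ a.support, a j * (f k).2.2.2 (f j).2.2.1 := by
        rw [hv, map_sum]
        exact Finset.sum_congr rfl fun j _ => by rw [map_smul, smul_eq_mul]
      have h2 : ∑ j ∈ a.support, a j * (f k).2.2.2 (f j).2.2.1 =
          ∑ j ∈ range (k + 1), a j * (f k).2.2.2 (f j).2.2.1 := by
        have e1 : ∑ j ∈ a.support, a j * (f k).2.2.2 (f j).2.2.1 =
            ∑ j ∈ a.support ∪ range (k + 1), a j * (f k).2.2.2 (f j).2.2.1 := by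
          apply Finset.sum_subset Finset.subset_union_left
          intro j _ hj
          rw [Finsupp.notMem_support_iff.1 hj, zero_mul]
        have e2 : ∑ j ∈ range (k + 1), a j * (f k).2.2.2 (f j).2.2.1 =
            ∑ j ∈ a.support ∪ range (k + 1), a j * (f k).2.2.2 (f j).2.2.1 := by
          apply Finset.sum_subset Finset.subset_union_right
          intro j _ hj
          have hkj : k < j := by
            by_contra hc
            exact hj (mem_range.2 (by omega))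
          rw [(hf2 k j hkj).2.1, mul_zero]
        rw [e1, e2]
      rw [h2, Finset.sum_range_succ, (hf1 k).2.2.2.2.1, mul_one] at h1
      have h3 : |(f k).2.2.2 v| ≤ ‖v‖ := by
        have := (f k).2.2.2.le_opNorm v
        rw [Real.norm_eq_abs] at this
        exact this.trans (mul_le_of_le_one_left (norm_nonneg _) (hf1 k).2.2.2.2.2)
      have h4 : |∑ j ∈ range k, a j * (f k).2.2.2 (f j).2.2.1| ≤ ∑ j ∈ range k, 2 ^ j * ‖v‖ := by
        refine (Finset.abs_sum_le_sum_abs _ _).trans (Finset.sum_le_sum fun j hj => ?_)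
        have hj' := mem_range.1 hj
        rw [abs_mul]
        have h5 : |(f k).2.2.2 (f j).2.2.1| ≤ 1 := by
          have := (f k).2.2.2.le_opNorm (f j).2.2.1
          rw [Real.norm_eq_abs, (hf1 j).2.2.2.1, mul_one] at this
          exact this.trans (hf1 k).2.2.2.2.2
        calc |a j| * |(f k).2.2.2 (f j).2.2.1| ≤ |a j| * 1 :=
              mul_le_mul_of_nonneg_left h5 (abs_nonneg _)
          _ = |a j| := mul_one _
          _ ≤ _ := ih j hj'
      have h6 : a k = (f k).2.2.2 v - ∑ j ∈ range k, a j * (f k).2.2.2 (f j).2.2.1 := by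
        rw [h1]; ring
      have h7 : (∑ j ∈ range k, (2 : ℝ) ^ j * ‖v‖) = (2 ^ k - 1) * ‖v‖ := by
        rw [← Finset.sum_mul, geom_sum_eq (by norm_num)]
        norm_num
      calc |a k| ≤ |(f k).2.2.2 v| + |∑ j ∈ range k, a j * (f k).2.2.2 (f j).2.2.1| := by
            conv_lhs => rw [h6]
            exact abs_sub _ _
        _ ≤ ‖v‖ + (2 ^ k - 1) * ‖v‖ := by
            rw [← h7]
            exact add_le_add h3 h4
        _ = 2 ^ k * ‖v‖ := by ring
  constructor
  · intro ha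
    by_contra hneg
    have h0 : ‖v‖ = 0 := le_antisymm (not_lt.1 hneg) (norm_nonneg _)
    apply ha
    ext k
    have := hcoef k
    rw [h0, mul_zero] at this
    exact abs_eq_zero.1 (le_antisymm this (abs_nonneg _))
  · have e1 : ∑ k ∈ a.support, a k • g (f k).2.1 - v =
        ∑ k ∈ a.support, a k • (g (f k).2.1 - (f k).2.2.1) := by
      rw [hv, ← Finset.sum_sub_distrib]
      exact Finset.sum_congr rfl fun k _ => by rw [smul_sub]
    rw [e1]
    have h1 : ‖∑ k ∈ a.support, a k • (g (f k).2.1 - (f k).2.2.1)‖ ≤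
        ∑ k ∈ a.support, (1 / 2 : ℝ) ^ (k + 1) * (η * ‖v‖) := by
      refine (norm_sum_le _ _).trans (Finset.sum_le_sum fun k _ => ?_)
      rw [norm_smul, Real.norm_eq_abs]
      have h2 : η * (1 / 4 : ℝ) ^ ((f k).1 + 1) ≤ η * (1 / 4 : ℝ) ^ (k + 1) := by
        apply mul_le_mul_of_nonneg_left _ hη.le
        exact pow_le_pow_of_le_one (by norm_num) (by norm_num) (Nat.succ_le_succ (hidx k))
      calc |a k| * ‖g (f k).2.1 - (f k).2.2.1‖ ≤ (2 ^ k * ‖v‖) * (η * (1 / 4 : ℝ) ^ (k + 1)) :=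
            mul_le_mul (hcoef k) ((hf1 k).2.2.1.trans h2) (norm_nonneg _)
              (mul_nonneg (by positivity) (norm_nonneg _))
        _ = (2 ^ k * (1 / 4 : ℝ) ^ (k + 1)) * (η * ‖v‖) := by ring
        _ ≤ (1 / 2 : ℝ) ^ (k + 1) * (η * ‖v‖) := by
            apply mul_le_mul_of_nonneg_right _ (mul_nonneg hη.le (norm_nonneg _))
            have h3 : (1 / 4 : ℝ) ^ (k + 1) = (1 / 2) ^ (k + 1) * (1 / 2) ^ (k + 1) := by
              rw [← mul_pow]; norm_num
            have h4 : (2 : ℝ) ^ k * (1 / 2) ^ (k + 1) = 1 / 2 := by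
              rw [pow_succ, ← mul_assoc, ← mul_pow]; norm_num
            rw [h3, ← mul_assoc, h4]
            have h5 : 0 < (1 / 2 : ℝ) ^ (k + 1) := by positivity
            linarith
    refine h1.trans ?_
    rw [← Finset.sum_mul]
    have h6 : ∑ k ∈ a.support, (1 / 2 : ℝ) ^ (k + 1) ≤ 1 := by
      have h7 : ∑ k ∈ a.support, (1 / 2 : ℝ) ^ (k + 1) ≤
          ∑ k ∈ range (a.support.sup id + 1), (1 / 2 : ℝ) ^ (k + 1) := by
        apply Finset.sum_le_sum_of_subset_of_nonneg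
        · intro k hk
          exact mem_range.2 (Nat.lt_succ_of_le (Finset.le_sup (f := id) hk))
        · intro k _ _
          positivity
      refine h7.trans ?_
      have h8 : ∀ n : ℕ, ∑ k ∈ range n, (1 / 2 : ℝ) ^ (k + 1) = 1 - (1 / 2) ^ n := by
        intro n
        induction n with
        | zero => simp
        | succ n ih => rw [Finset.sum_range_succ, ih]; ring
      rw [h8]
      have : 0 < (1 / 2 : ℝ) ^ (a.support.sup id + 1) := by positivity
      linarith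
    calc (∑ k ∈ a.support, (1 / 2 : ℝ) ^ (k + 1)) * (η * ‖v‖) ≤ 1 * (η * ‖v‖) :=
          mul_le_mul_of_nonneg_right h6 (mul_nonneg hη.le (norm_nonneg _))
      _ = η * ‖v‖ := one_mul _

/-- Perturbation: if the infinite dimensional `W` is in the closure of `Y`, then `Y` contains an
infinite dimensional subspace close to a subspace of `W`. -/
theorem own_pert (W Y : Submodule ℝ X) (hW : ¬ FiniteDimensional ℝ W)
    (hWY : ∀ w ∈ W, w ∈ closure (Y : Set X)) (η : ℝ) (hη : 0 < η) :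
    ∃ y w : ℕ → X, (∀ k, y k ∈ Y) ∧ (∀ k, w k ∈ W) ∧
      ∀ a : ℕ →₀ ℝ, (a ≠ 0 → 0 < ‖∑ k ∈ a.support, a k • w k‖) ∧
        ‖∑ k ∈ a.support, a k • y k - ∑ k ∈ a.support, a k • w k‖ ≤
          η * ‖∑ k ∈ a.support, a k • w k‖ := by
  obtain ⟨y, w, h1, -, h2, h3⟩ := own_pert_gen (fun x : X => x) (fun y => y ∈ Y)
    (fun _ _ => True) W η hη (by
      intro s F ε hε
      obtain ⟨w, hw, hw1, hwF⟩ := own_vec W hW F
      obtain ⟨y, hy, hyd⟩ := Metric.mem_closure_iff.1 (hWY w hw) _ hε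
      refine ⟨y, w, hw, hw1, hwF, hy, fun _ _ => trivial, ?_⟩
      rw [dist_comm, dist_eq_norm] at hyd
      exact hyd.le)
  exact ⟨y, w, h1, h2, h3⟩

end Pool.Agent.Lib_helper25.AD
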