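import Pool.Agent.Lib_helper25.AD.Blk.FINAL
import Pool.Agent.Lib_helper25.ADO.AsLp
import Pool.Agent.Lib_helper25.ADO.Pert

/-!
# No asymptotic l_p space is of bounded distortion: closed subspaces, any universe
-/

set_option autoImplicit false

open Finset Filter Topology

namespace Pool.Agent.Lib_helper25.AD

universe u

/-- no definite asymptotic `l_p` norm on the finitely supported sequences is of bounded
distortion -/
theorem own_core (ν : Seminorm ℝ E) (hdf : Dfn ν) (p K D : ℝ) (hp : 1 < p) (hK : 1 ≤ K)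
    (hAs : AsLp ν p K) (hBD : BD ν D) : False := by
  have hBDF := bdf_of_bd _ D hBD
  have hD1 : 1 ≤ D := final_one_le hdf hBDF
  have hBDQ := bdfq_of_bdf _ hdf p K D hp hK hD1 hAs hBDF
  obtain ⟨C, hC, hI⟩ := partI _ hdf p K (2 * D) hp hK (by linarith) hAs hBDQ
  obtain ⟨T₀, hT₀⟩ := partII p C hp hC
  obtain ⟨z, hz, hSA⟩ := hI T₀
  have hBDz := bd_pullback _ D hBD (lc z) (lc_injective hz)
  have hdz : Dfn (ν.comp (lc z)) := by
    intro x hx
    rw [Seminorm.comp_apply]
    apply hdf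
    intro h
    exact hx (lc_injective hz (by rw [h, map_zero]))
  exact hT₀ _ hdz hSA D (bdf_of_bd _ D hBDz)

section
variable {X : Type u} [NormedAddCommGroup X] [NormedSpace ℝ X]

/-- injectivity of the map given by a basis -/
theorem own_inj (e : ℕ → X)
    (hexp : ∀ x : X, ∃! a : ℕ → ℝ,
      Tendsto (fun n => ∑ i ∈ Finset.range n, a i • e i) atTop (𝓝 x)) :
    Function.Injective (Finsupp.linearCombination ℝ e : E →ₗ[ℝ] X) := by
  rw [injective_iff_map_eq_zero]
  intro a ha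
  obtain ⟨b, hb, hu⟩ := hexp 0
  have h1 : (⇑a : ℕ → ℝ) = b := by
    apply hu
    show Tendsto (fun n => ∑ i ∈ Finset.range n, a i • e i) atTop (𝓝 0)
    have hev : ∀ᶠ n in atTop, ∑ i ∈ Finset.range n, a i • e i = 0 := by
      filter_upwards [eventually_gt_atTop (a.support.sup id)] with n hn
      rw [← ha, Finsupp.linearCombination_apply, Finsupp.sum]
      symm
      apply Finset.sum_subset
      · intro i hi
        exact mem_range.2 ((Finset.le_sup (f := id) hi).trans_lt hn)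
      · intro i _ hi
        rw [Finsupp.notMem_support_iff.1 hi, zero_smul]
    exact tendsto_const_nhds.congr' (hev.mono fun n hn => hn.symm)
  have h2 : (0 : ℕ → ℝ) = b := by
    apply hu
    simp
  ext i
  exact congrFun (h1.trans h2.symm) i

/-- the competitors -/
noncomputable def own_f (φ : E →ₗ[ℝ] X) (N : Seminorm ℝ E) (β : ℝ) (x : X) (w : E) : ℝ :=
  N w + β * ‖x - φ w‖

theorem own_nn (φ : E →ₗ[ℝ] X) (N : Seminorm ℝ E) {β : ℝ} (hβ : 0 < β) (x : X) (w : E) :
    0 ≤ own_f φ N β x w :=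
  add_nonneg (apply_nonneg _ _) (mul_nonneg hβ.le (norm_nonneg _))

theorem own_bdd (φ : E →ₗ[ℝ] X) (N : Seminorm ℝ E) {β : ℝ} (hβ : 0 < β) (x : X) :
    BddBelow (Set.range (own_f φ N β x)) := by
  refine ⟨0, ?_⟩
  rintro _ ⟨w, rfl⟩
  exact own_nn φ N hβ x w

theorem own_val (φ : E →ₗ[ℝ] X) (N : Seminorm ℝ E) {β : ℝ} (hβ : 0 < β)
    (h : ∀ w, N w ≤ β * ‖φ w‖) (w : E) : ⨅ w', own_f φ N β (φ w) w' = N w := by
  apply le_antisymm
  · refine (ciInf_le (own_bdd φ N hβ (φ w)) w).trans ?_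
    unfold own_f
    rw [sub_self, norm_zero, mul_zero, add_zero]
  · refine le_ciInf fun w' => ?_
    unfold own_f
    have h1 : N w ≤ N w' + N (w - w') := by
      have := map_add_le_add N w' (w - w')
      rwa [add_sub_cancel] at this
    have h2 := h (w - w')
    rw [φ.map_sub] at h2
    linarith

/-- the extended seminorm -/
noncomputable def own_N (φ : E →ₗ[ℝ] X) (N : Seminorm ℝ E) {β : ℝ}
    (hβ : 0 < β) (h : ∀ w, N w ≤ β * ‖φ w‖) : Seminorm ℝ X :=
  Seminorm.ofSMulLE (fun x => ⨅ w, own_f φ N β x w)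
    (by
      have := own_val φ N hβ h 0
      rw [map_zero, map_zero] at this
      exact this)
    (fun x y => by
      refine le_ciInf_add_ciInf fun w1 w2 => ?_
      refine (ciInf_le (own_bdd φ N hβ (x + y)) (w1 + w2)).trans ?_
      unfold own_f
      have h1 := map_add_le_add N w1 w2
      have h2 := norm_add_le (x - φ w1) (y - φ w2)
      have e : x + y - φ (w1 + w2) = (x - φ w1) + (y - φ w2) := by
        rw [map_add]; abel
      rw [e]
      have h3 := mul_le_mul_of_nonneg_left h2 hβ.le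
      linarith)
    (fun t x => by
      rw [Real.mul_iInf_of_nonneg (norm_nonneg t)]
      refine le_ciInf fun w => ?_
      refine (ciInf_le (own_bdd φ N hβ (t • x)) (t • w)).trans ?_
      unfold own_f
      rw [φ.map_smul, ← smul_sub, map_smul_eq_mul, norm_smul]
      apply le_of_eq
      ring)

theorem own_N_apply (φ : E →ₗ[ℝ] X) (N : Seminorm ℝ E) {β : ℝ}
    (hβ : 0 < β) (h : ∀ w, N w ≤ β * ‖φ w‖) (x : X) :
    own_N φ N hβ h x = ⨅ w, own_f φ N β x w := rfl

theorem own_N_ext (φ : E →ₗ[ℝ] X) (N : Seminorm ℝ E) {β : ℝ}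
    (hβ : 0 < β) (h : ∀ w, N w ≤ β * ‖φ w‖) (w : E) : own_N φ N hβ h (φ w) = N w := by
  rw [own_N_apply, own_val φ N hβ h]

theorem own_N_upper (φ : E →ₗ[ℝ] X) (N : Seminorm ℝ E) {β : ℝ}
    (hβ : 0 < β) (h : ∀ w, N w ≤ β * ‖φ w‖) (x : X) : own_N φ N hβ h x ≤ β * ‖x‖ := by
  rw [own_N_apply]
  refine (ciInf_le (own_bdd φ N hβ x) 0).trans ?_
  unfold own_f
  rw [map_zero, map_zero, sub_zero, zero_add]

theorem own_N_lower (φ : E →ₗ[ℝ] X) (N : Seminorm ℝ E) {α β : ℝ} (hα : 0 < α)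
    (hβ : 0 < β) (h : ∀ w, N w ≤ β * ‖φ w‖) (h' : ∀ w, α * ‖φ w‖ ≤ N w) (x : X) :
    min α β * ‖x‖ ≤ own_N φ N hβ h x := by
  rw [own_N_apply]
  refine le_ciInf fun w => ?_
  unfold own_f
  have h1 : ‖x‖ ≤ ‖φ w‖ + ‖x - φ w‖ := by
    have := norm_add_le (φ w) (x - φ w)
    rwa [add_sub_cancel] at this
  have h4 : 0 < min α β := lt_min hα hβ
  calc min α β * ‖x‖ ≤ min α β * (‖φ w‖ + ‖x - φ w‖) :=
        mul_le_mul_of_nonneg_left h1 h4.le
    _ = min α β * ‖φ w‖ + min α β * ‖x - φ w‖ := mul_add _ _ _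
    _ ≤ α * ‖φ w‖ + β * ‖x - φ w‖ :=
        add_le_add (mul_le_mul_of_nonneg_right (min_le_left _ _) (norm_nonneg _))
          (mul_le_mul_of_nonneg_right (min_le_right _ _) (norm_nonneg _))
    _ ≤ N w + β * ‖x - φ w‖ := add_le_add (h' w) le_rfl

/-- bounded distortion of `W` for closed subspaces, in homogeneous form -/
def BDC (W : Submodule ℝ X) (D : ℝ) : Prop :=
  ∀ N : Seminorm ℝ X, (∃ α β : ℝ, 0 < α ∧ 0 < β ∧ ∀ x, α * ‖x‖ ≤ N x ∧ N x ≤ β * ‖x‖) →
    ∀ Y : Submodule ℝ X, Y ≤ W → IsClosed (Y : Set X) → ¬ FiniteDimensional ℝ Y →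
      ∃ Z : Submodule ℝ X, Z ≤ Y ∧ IsClosed (Z : Set X) ∧ ¬ FiniteDimensional ℝ Z ∧
        ∀ z ∈ Z, ∀ w ∈ Z, N z * ‖w‖ ≤ D * (N w * ‖z‖)

/-- from closed subspaces of `X` to all subspaces of the finitely supported sequences -/
theorem own_bd (W : Submodule ℝ X) (hWc : IsClosed (W : Set X)) (φ : E →ₗ[ℝ] X)
    (hφ : Function.Injective φ) (hφW : ∀ a, φ a ∈ W) (D : ℝ) (hD : 0 ≤ D)
    (h : BDC W D) : BD ((normSeminorm ℝ X).comp φ) (3 * D) := by
  intro N hN Y hY
  obtain ⟨α, β, hα, hβ, hab⟩ := hN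
  have hup : ∀ w, N w ≤ β * ‖φ w‖ := fun w => (hab w).2
  have hlo : ∀ w, α * ‖φ w‖ ≤ N w := fun w => (hab w).1
  set M := own_N φ N hβ hup with hM
  have hMup : ∀ x, M x ≤ β * ‖x‖ := own_N_upper φ N hβ hup
  have hMlo : ∀ x, min α β * ‖x‖ ≤ M x := own_N_lower φ N hα hβ hup hlo
  set γ := min α β with hγ
  have hγ0 : 0 < γ := lt_min hα hβ
  have hYc : ¬ FiniteDimensional ℝ ((Y.map φ).topologicalClosure) := by
    intro hfd
    have h1 : FiniteDimensional ℝ (Y.map φ) :=
      Submodule.finiteDimensional_of_le (Submodule.le_topologicalClosure (Y.map φ))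
    exact hY ((Submodule.equivMapOfInjective φ hφ Y).symm.finiteDimensional)
  have hYW : (Y.map φ).topologicalClosure ≤ W := by
    apply Submodule.topologicalClosure_minimal _ _ hWc
    intro x hx
    obtain ⟨a, -, rfl⟩ := Submodule.mem_map.1 hx
    exact hφW a
  obtain ⟨Z, hZY, -, hZ, hZD⟩ := h M ⟨γ, β, hγ0, hβ, fun x => ⟨hMlo x, hMup x⟩⟩
    (Y.map φ).topologicalClosure hYW (Submodule.isClosed_topologicalClosure _) hYc
  set η : ℝ := min (1 / 4) (γ / (4 * β)) with hη
  have hη0 : 0 < η := lt_min (by norm_num) (by positivity)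
  have hη1 : η ≤ 1 / 4 := min_le_left _ _
  have hη2 : β * η ≤ γ / 4 := by
    have : η ≤ γ / (4 * β) := min_le_right _ _
    calc β * η ≤ β * (γ / (4 * β)) := mul_le_mul_of_nonneg_left this hβ.le
      _ = γ / 4 := by field_simp
  obtain ⟨y, w, hy, hw, hyw⟩ := own_pert Z (Y.map φ) hZ (fun z hz => hZY hz) η hη0
  choose u hu1 hu2 using fun k => Submodule.mem_map.1 (hy k)
  -- the vectors
  have hφu : ∀ a : E, φ (∑ k ∈ a.support, a k • u k) = ∑ k ∈ a.support, a k • y k := by
    intro a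
    rw [map_sum]
    exact Finset.sum_congr rfl fun k _ => by rw [map_smul, hu2]
  have hwZ : ∀ a : E, ∑ k ∈ a.support, a k • w k ∈ Z := fun a =>
    Z.sum_mem fun k _ => Z.smul_mem _ (hw k)
  -- comparison of norms
  have c1 : ∀ a : E, ‖∑ k ∈ a.support, a k • y k‖ ≤ 5 / 4 * ‖∑ k ∈ a.support, a k • w k‖ := by
    intro a
    have h1 := (hyw a).2
    have h2 : ‖∑ k ∈ a.support, a k • y k‖ ≤
        ‖∑ k ∈ a.support, a k • y k - ∑ k ∈ a.support, a k • w k‖ +
          ‖∑ k ∈ a.support, a k • w k‖ := by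
      have := norm_add_le (∑ k ∈ a.support, a k • y k - ∑ k ∈ a.support, a k • w k)
        (∑ k ∈ a.support, a k • w k)
      rwa [sub_add_cancel] at this
    have h3 := mul_le_mul_of_nonneg_right hη1 (norm_nonneg (∑ k ∈ a.support, a k • w k))
    linarith
  have c2 : ∀ a : E, ‖∑ k ∈ a.support, a k • w k‖ ≤ 4 / 3 * ‖∑ k ∈ a.support, a k • y k‖ := by
    intro a
    have h1 := (hyw a).2
    have h2 : ‖∑ k ∈ a.support, a k • w k‖ ≤ ‖∑ k ∈ a.support, a k • y k‖ +
        ‖∑ k ∈ a.support, a k • y k - ∑ k ∈ a.support, a k • w k‖ := by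
      have := norm_sub_le (∑ k ∈ a.support, a k • y k)
        (∑ k ∈ a.support, a k • y k - ∑ k ∈ a.support, a k • w k)
      rwa [sub_sub_cancel] at this
    have h3 := mul_le_mul_of_nonneg_right hη1 (norm_nonneg (∑ k ∈ a.support, a k • w k))
    linarith
  have hdiff : ∀ a : E, M (∑ k ∈ a.support, a k • y k - ∑ k ∈ a.support, a k • w k) ≤
      1 / 4 * M (∑ k ∈ a.support, a k • w k) := by
    intro a
    have h1 := hMup (∑ k ∈ a.support, a k • y k - ∑ k ∈ a.support, a k • w k)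
    have h2 := mul_le_mul_of_nonneg_left (hyw a).2 hβ.le
    have h3 := mul_le_mul_of_nonneg_right hη2 (norm_nonneg (∑ k ∈ a.support, a k • w k))
    have h4 := hMlo (∑ k ∈ a.support, a k • w k)
    calc M (∑ k ∈ a.support, a k • y k - ∑ k ∈ a.support, a k • w k) ≤ _ := h1
      _ ≤ β * (η * ‖∑ k ∈ a.support, a k • w k‖) := h2
      _ = β * η * ‖∑ k ∈ a.support, a k • w k‖ := by ring
      _ ≤ γ / 4 * ‖∑ k ∈ a.support, a k • w k‖ := h3
      _ ≤ 1 / 4 * M (∑ k ∈ a.support, a k • w k) := by linarith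
  have c3 : ∀ a : E, M (∑ k ∈ a.support, a k • y k) ≤ 5 / 4 * M (∑ k ∈ a.support, a k • w k) := by
    intro a
    have h2 : M (∑ k ∈ a.support, a k • y k) ≤
        M (∑ k ∈ a.support, a k • y k - ∑ k ∈ a.support, a k • w k) +
          M (∑ k ∈ a.support, a k • w k) := by
      have := map_add_le_add M (∑ k ∈ a.support, a k • y k - ∑ k ∈ a.support, a k • w k)
        (∑ k ∈ a.support, a k • w k)
      rwa [sub_add_cancel] at this
    have h1 := hdiff a
    linarith
  have c4 : ∀ a : E, M (∑ k ∈ a.support, a k • w k) ≤ 4 / 3 * M (∑ k ∈ a.support, a k • y k) := by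
    intro a
    have h2 : M (∑ k ∈ a.support, a k • w k) ≤ M (∑ k ∈ a.support, a k • y k) +
        M (∑ k ∈ a.support, a k • y k - ∑ k ∈ a.support, a k • w k) := by
      have := map_sub_le_add M (∑ k ∈ a.support, a k • y k)
        (∑ k ∈ a.support, a k • y k - ∑ k ∈ a.support, a k • w k)
      rwa [sub_sub_cancel] at this
    have h1 := hdiff a
    linarith
  refine ⟨Submodule.span ℝ (Set.range u), ?_, ?_, ?_⟩
  · rw [Submodule.span_le]
    rintro _ ⟨k, rfl⟩
    exact hu1 k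
  · intro hfd
    have hli : LinearIndependent ℝ u := by
      have hinj : Function.Injective (Finsupp.linearCombination ℝ u) := by
        refine (injective_iff_map_eq_zero _).mpr fun a ha => ?_
        by_contra hne
        have h1 := (hyw a).1 hne
        have h2 := c2 a
        have h3 : Finsupp.linearCombination ℝ u a = ∑ k ∈ a.support, a k • u k := by
          rw [Finsupp.linearCombination_apply]; rfl
        rw [← hφu a, ← h3, ha, map_zero, norm_zero, mul_zero] at h2
        linarith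
      exact hinj
    have hli2 := linearIndependent_span hli
    have : Module.Finite ℝ (Submodule.span ℝ (Set.range u)) := hfd
    have h2 : Finite ℕ := hli2.finite
    exact not_finite ℕ
  · intro z hz t ht
    obtain ⟨a, ha⟩ := (Finsupp.mem_span_range_iff_exists_finsupp).1 hz
    obtain ⟨b, hb⟩ := (Finsupp.mem_span_range_iff_exists_finsupp).1 ht
    have ha' : z = ∑ k ∈ a.support, a k • u k := ha.symm
    have hb' : t = ∑ k ∈ b.support, b k • u k := hb.symm
    have ez : N z = M (∑ k ∈ a.support, a k • y k) := by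
      rw [← hφu a, ← ha', hM, own_N_ext]
    have et : N t = M (∑ k ∈ b.support, b k • y k) := by
      rw [← hφu b, ← hb', hM, own_N_ext]
    have nz : ((normSeminorm ℝ X).comp φ) z = ‖∑ k ∈ a.support, a k • y k‖ := by
      rw [Seminorm.comp_apply, coe_normSeminorm, ha', hφu a]
    have nt : ((normSeminorm ℝ X).comp φ) t = ‖∑ k ∈ b.support, b k • y k‖ := by
      rw [Seminorm.comp_apply, coe_normSeminorm, hb', hφu b]
    rw [ez, et, nz, nt]
    have key := hZD _ (hwZ a) _ (hwZ b)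
    have n1 : 0 ≤ M (∑ k ∈ a.support, a k • w k) := apply_nonneg _ _
    have n2 : 0 ≤ M (∑ k ∈ b.support, b k • y k) := apply_nonneg _ _
    have n3 : 0 ≤ M (∑ k ∈ b.support, b k • w k) := apply_nonneg _ _
    calc M (∑ k ∈ a.support, a k • y k) * ‖∑ k ∈ b.support, b k • y k‖
        ≤ (5 / 4 * M (∑ k ∈ a.support, a k • w k)) * (5 / 4 * ‖∑ k ∈ b.support, b k • w k‖) :=
          mul_le_mul (c3 a) (c1 b) (norm_nonneg _) (by positivity)
      _ = 25 / 16 * (M (∑ k ∈ a.support, a k • w k) * ‖∑ k ∈ b.support, b k • w k‖) := by ring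
      _ ≤ 25 / 16 * (D * (M (∑ k ∈ b.support, b k • w k) * ‖∑ k ∈ a.support, a k • w k‖)) :=
          mul_le_mul_of_nonneg_left key (by norm_num)
      _ ≤ 25 / 16 * (D * ((4 / 3 * M (∑ k ∈ b.support, b k • y k)) *
            (4 / 3 * ‖∑ k ∈ a.support, a k • y k‖))) := by
          apply mul_le_mul_of_nonneg_left _ (by norm_num)
          apply mul_le_mul_of_nonneg_left _ hD
          exact mul_le_mul (c4 b) (c2 a) (norm_nonneg _) (by positivity)
      _ = 25 / 9 * D * (M (∑ k ∈ b.support, b k • y k) * ‖∑ k ∈ a.support, a k • y k‖) := by ring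
      _ ≤ 3 * D * (M (∑ k ∈ b.support, b k • y k) * ‖∑ k ∈ a.support, a k • y k‖) := by
          apply mul_le_mul_of_nonneg_right _ (mul_nonneg n2 (norm_nonneg _))
          linarith

end

end Pool.Agent.Lib_helper25.AD
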