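import Pool.Agent.Lib_helper25.ADO.Core

/-!
# No subspace of an asymptotic l_p space is of bounded distortion; arbitrarily distortable
subspaces
-/

set_option autoImplicit false

open Finset Filter Topology

namespace Pool.Agent.Lib_helper25.AD

universe u

/-! ### block sequences inherit the asymptotic l_p property -/

open Classical in
/-- the index of the block which contains `t` -/
noncomputable def own_idx {u : ℕ → E} (hu : IsBlk u) (t : ℕ) : ℕ :=
  Nat.findGreatest (fun i => st hu i ≤ t) t

theorem own_idx_mono {u : ℕ → E} (hu : IsBlk u) : Monotone (own_idx hu) := by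
  classical
  intro a b hab
  exact Nat.findGreatest_mono (fun n hn => le_trans hn hab) hab

theorem own_idx_eq {u : ℕ → E} (hu : IsBlk u) {i t : ℕ} (ht : t ∈ (u i).support) :
    own_idx hu t = i := by
  classical
  have h1 : st hu i ≤ t := st_le hu ht
  have h2 : i ≤ t := (le_st hu i).trans h1
  apply le_antisymm
  · by_contra hc
    have hc' : i < own_idx hu t := not_le.1 hc
    have hne : own_idx hu t ≠ 0 := by omega
    have h3 : st hu (own_idx hu t) ≤ t := by
      have := (Nat.findGreatest_eq_iff (P := fun i => st hu i ≤ t) (k := t)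
        (m := own_idx hu t)).1 rfl
      exact this.2.1 hne
    have h4 := hu.bef hc' t ht _ (st_mem hu _)
    omega
  · exact Nat.le_findGreatest h2 h1

theorem own_cls_lc {u : ℕ → E} (hu : IsBlk u) (s : ℕ → ℕ) (k : ℕ) (x : E) :
    cls (fun t => s (own_idx hu t)) k (lc u x) = lc u (cls s k x) := by
  have h : (cls (fun t => s (own_idx hu t)) k).comp (lc u) = (lc u).comp (cls s k) := by
    apply Finsupp.lhom_ext
    intro i b
    rw [LinearMap.comp_apply, LinearMap.comp_apply]
    have e1 : lc u (Finsupp.single i b) = b • u i := by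
      rw [lc, Finsupp.linearCombination_single]
    have e2 : cls s k (Finsupp.single i b) = if s i = k then Finsupp.single i b else 0 := by
      ext t
      rw [cls_apply]
      by_cases hti : t = i
      · subst hti
        by_cases h : s t = k <;> simp [h]
      · have h0 : (Finsupp.single i b : E) t = 0 := Finsupp.single_eq_of_ne hti
        rw [h0]
        by_cases h : s i = k
        · rw [if_pos h, h0]; simp
        · rw [if_neg h]; simp
    rw [e1, e2, map_smul]
    ext t
    rw [Finsupp.smul_apply, cls_apply]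
    by_cases ht : t ∈ (u i).support
    · rw [own_idx_eq hu ht]
      by_cases h : s i = k
      · rw [if_pos h, if_pos h, e1, Finsupp.smul_apply]
      · rw [if_neg h, if_neg h, map_zero]; simp
    · have h0 : (u i) t = 0 := by simpa using ht
      rw [h0]
      by_cases h : s i = k
      · rw [if_pos h, e1, Finsupp.smul_apply, h0]; simp
      · rw [if_neg h, map_zero]; simp
  exact LinearMap.congr_fun h x

theorem own_aslp_block {ν : Seminorm ℝ E} {p K : ℝ} (hAs : AsLp ν p K) {u : ℕ → E}
    (hu : IsBlk u) : AsLp (ν.comp (lc u)) p K := by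
  intro r s x hs hsr hx
  have hsup : ∀ t ∈ (lc u x).support, r ≤ t := by
    intro t ht
    rw [lc_apply, Finsupp.mem_support_iff, Finsupp.finsetSum_apply] at ht
    obtain ⟨i, hi, hne⟩ := Finset.exists_ne_zero_of_sum_ne_zero ht
    have hti : t ∈ (u i).support := by
      rw [Finsupp.mem_support_iff]
      intro h0
      apply hne
      rw [Finsupp.smul_apply, h0, smul_zero]
    exact (hx i hi).trans ((le_st hu i).trans (st_le hu hti))
  obtain ⟨h1, h2⟩ := hAs r (fun t => s (own_idx hu t)) (lc u x)
    (hs.comp (own_idx_mono hu)) (fun i => hsr _) hsup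
  unfold LowAt at h1 ⊢
  unfold UppAt at h2 ⊢
  simp only [own_cls_lc hu] at h1 h2
  exact ⟨h1, h2⟩

/-- bounded distortion passes to equivalent norms -/
theorem own_bd_equiv (ν ν' : Seminorm ℝ E) (A B D : ℝ) (hA : 0 < A) (hB : 0 < B) (hD : 0 ≤ D)
    (h1 : ∀ x, ν' x ≤ A * ν x) (h2 : ∀ x, ν x ≤ B * ν' x) (h : BD ν D) :
    BD ν' (A * B * D) := by
  intro N hN Y hY
  obtain ⟨α, β, hα, hβ, hab⟩ := hN
  obtain ⟨Z, hZY, hZ, hZD⟩ := h N ⟨α / B, β * A, div_pos hα hB, mul_pos hβ hA, fun x => by
    constructor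
    · have h3 := (hab x).1
      have h4 : α / B * ν x ≤ α / B * (B * ν' x) :=
        mul_le_mul_of_nonneg_left (h2 x) (div_pos hα hB).le
      have h5 : α / B * (B * ν' x) = α * ν' x := by field_simp
      linarith
    · have h3 := (hab x).2
      have h4 := mul_le_mul_of_nonneg_left (h1 x) hβ.le
      linarith⟩ Y hY
  refine ⟨Z, hZY, hZ, fun z hz w hw => ?_⟩
  have n1 : 0 ≤ N z := apply_nonneg _ _
  have n2 : 0 ≤ N w := apply_nonneg _ _
  calc N z * ν' w ≤ N z * (A * ν w) := mul_le_mul_of_nonneg_left (h1 w) n1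
    _ = A * (N z * ν w) := by ring
    _ ≤ A * (D * (N w * ν z)) := mul_le_mul_of_nonneg_left (hZD z hz w hw) hA.le
    _ ≤ A * (D * (N w * (B * ν' z))) := by
        apply mul_le_mul_of_nonneg_left _ hA.le
        apply mul_le_mul_of_nonneg_left _ hD
        exact mul_le_mul_of_nonneg_left (h2 z) n2
    _ = A * B * D * (N w * ν' z) := by ring

section
variable {X : Type u} [NormedAddCommGroup X] [NormedSpace ℝ X]

/-- the coordinate functionals of a basis -/
theorem own_coord (e : ℕ → X)
    (hexp : ∀ x : X, ∃! a : ℕ → ℝ,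
      Tendsto (fun n => ∑ i ∈ Finset.range n, a i • e i) atTop (𝓝 x)) :
    ∃ c : ℕ → (X →ₗ[ℝ] ℝ), ∀ x,
      Tendsto (fun n => ∑ i ∈ Finset.range n, c i x • e i) atTop (𝓝 x) := by
  choose a ha hu using hexp
  have hadd : ∀ x y, a (x + y) = a x + a y := by
    intro x y
    symm
    apply hu
    have := (ha x).add (ha y)
    refine this.congr fun n => ?_
    rw [← Finset.sum_add_distrib]
    exact Finset.sum_congr rfl fun i _ => by rw [Pi.add_apply, add_smul]
  have hsmul : ∀ (t : ℝ) x, a (t • x) = t • a x := by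
    intro t x
    symm
    apply hu
    have := (ha x).const_smul t
    refine this.congr fun n => ?_
    rw [Finset.smul_sum]
    exact Finset.sum_congr rfl fun i _ => by rw [Pi.smul_apply, smul_smul, smul_eq_mul]
  exact ⟨fun i => { toFun := fun x => a x i
                    map_add' := fun x y => by rw [hadd]; rfl
                    map_smul' := fun t x => by rw [hsmul]; rfl }, ha⟩

/-- No closed infinite dimensional subspace of an asymptotic `l_p` space is of bounded
distortion. -/
theorem own_hered (e : ℕ → X)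
    (hexp : ∀ x : X, ∃! a : ℕ → ℝ,
      Tendsto (fun n => ∑ i ∈ Finset.range n, a i • e i) atTop (𝓝 x))
    (p K : ℝ) (hp : 1 < p) (hK : 1 ≤ K)
    (hAs : AsLp ((normSeminorm ℝ X).comp (Finsupp.linearCombination ℝ e : E →ₗ[ℝ] X)) p K)
    (W : Submodule ℝ X) (hWc : IsClosed (W : Set X)) (hW : ¬ FiniteDimensional ℝ W)
    (D : ℝ) (hD : 0 ≤ D) (h : BDC W D) : False := by
  classical
  set φ : E →ₗ[ℝ] X := Finsupp.linearCombination ℝ e with hφ
  have hinj : Function.Injective φ := own_inj e hexp
  obtain ⟨c, hc⟩ := own_coord e hexp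
  obtain ⟨u, w, hu1, hu2, hwW, hest⟩ := own_pert_gen (fun x : E => φ x) (fun x => x ≠ 0) Bef W
    (1 / 4) (by norm_num) (by
      intro s F ε hε
      set m := s.sup (fun x => x.support.sup id) + 1 with hm
      obtain ⟨w, hw, hw1, hwF⟩ := own_vec W hW (F ∪ (range m).image c)
      have hlim := hc w
      rw [Metric.tendsto_atTop] at hlim
      obtain ⟨n, hn⟩ := hlim (min ε (1 / 2)) (lt_min hε (by norm_num))
      have hn := hn n le_rfl
      set x : E := ∑ i ∈ range n, Finsupp.single i (c i w) with hx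
      have hφx : φ x = ∑ i ∈ range n, c i w • e i := by
        rw [hx, map_sum]
        exact Finset.sum_congr rfl fun i _ => by rw [hφ, Finsupp.linearCombination_single]
      have hxi : ∀ i, x i = if i < n then c i w else 0 := by
        intro i
        rw [hx, Finsupp.finsetSum_apply]
        simp only [Finsupp.single_apply]
        rw [Finset.sum_ite_eq']
        simp
      rw [dist_eq_norm, ← hφx] at hn
      refine ⟨x, w, hw, hw1, fun f hf => hwF f (Finset.mem_union_left _ hf), ?_, ?_, ?_⟩
      · intro h0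
        rw [h0, map_zero, zero_sub, norm_neg, hw1] at hn
        have := hn.trans_le (min_le_right _ _)
        norm_num at this
      · intro v hv a ha b hb
        have h1 : a < m := by
          have h2 : a ≤ v.support.sup id := Finset.le_sup (f := id) ha
          have h3 : v.support.sup id ≤ s.sup (fun x => x.support.sup id) :=
            Finset.le_sup (f := fun x : E => x.support.sup id) hv
          omega
        by_contra hab
        have h4 : b < m := by omega
        have h5 : c b w = 0 := hwF _ (Finset.mem_union_right _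
          (Finset.mem_image_of_mem c (mem_range.2 h4)))
        rw [Finsupp.mem_support_iff, hxi b, h5] at hb
        simp at hb
      · exact (hn.le.trans (min_le_left _ _)))
  have hu : IsBlk u := ⟨hu1, fun i => hu2 i (i + 1) (Nat.lt_succ_self i)⟩
  -- the map given by `w`
  set ψ : E →ₗ[ℝ] X := Finsupp.linearCombination ℝ w with hψ
  have hψa : ∀ a : E, ψ a = ∑ k ∈ a.support, a k • w k := by
    intro a
    rw [hψ, Finsupp.linearCombination_apply]; rfl
  have hψinj : Function.Injective ψ := by
    rw [injective_iff_map_eq_zero]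
    intro a ha
    by_contra hne
    have := (hest a).1 hne
    rw [← hψa a, ha, norm_zero] at this
    exact lt_irrefl _ this
  have hψW : ∀ a, ψ a ∈ W := by
    intro a
    rw [hψa]
    exact W.sum_mem fun k _ => W.smul_mem _ (hwW k)
  have hBD := own_bd W hWc ψ hψinj hψW D hD h
  have hφa : ∀ a : E, φ (lc u a) = ∑ k ∈ a.support, a k • φ (u k) := by
    intro a
    rw [lc_apply, map_sum]
    exact Finset.sum_congr rfl fun k _ => by rw [map_smul]
  have hcl : ∀ a : E, ‖φ (lc u a) - ψ a‖ ≤ 1 / 4 * ‖ψ a‖ := by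
    intro a
    rw [hφa, hψa]
    exact (hest a).2
  have hBD' := own_bd_equiv ((normSeminorm ℝ X).comp ψ) (((normSeminorm ℝ X).comp φ).comp (lc u))
    (5 / 4) (4 / 3) (3 * D) (by norm_num) (by norm_num) (by positivity)
    (fun x => by
      show ‖φ (lc u x)‖ ≤ 5 / 4 * ‖ψ x‖
      have h1 := hcl x
      have h2 := norm_add_le (φ (lc u x) - ψ x) (ψ x)
      rw [sub_add_cancel] at h2
      linarith)
    (fun x => by
      show ‖ψ x‖ ≤ 4 / 3 * ‖φ (lc u x)‖
      have h1 := hcl x
      have h2 := norm_sub_le (φ (lc u x)) (φ (lc u x) - ψ x)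
      rw [sub_sub_cancel] at h2
      linarith) hBD
  have hdf : Dfn (((normSeminorm ℝ X).comp φ).comp (lc u)) := by
    intro x hx
    show 0 < ‖φ (lc u x)‖
    rw [norm_pos_iff]
    intro h0
    have h1 : lc u x = 0 := hinj (by rw [h0, map_zero])
    exact hx (lc_injective hu (by rw [h1, map_zero]))
  exact own_core _ hdf p K _ hp hK (own_aslp_block hAs hu) hBD'

/-- Diagonal argument: an arbitrarily distortable subspace. -/
theorem own_diag
    (P : Submodule ℝ X → ℝ → Seminorm ℝ X → Prop)
    (hP : ∀ W D N, P W D N ↔ ∀ Z : Submodule ℝ X, Z ≤ W → IsClosed (Z : Set X) →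
      ¬ FiniteDimensional ℝ Z → ∃ z ∈ Z, ∃ w ∈ Z, D * (N w * ‖z‖) < N z * ‖w‖)
    (Q : Seminorm ℝ X → Prop)
    (hex : ∀ W : Submodule ℝ X, IsClosed (W : Set X) → ¬ FiniteDimensional ℝ W → ∀ D : ℝ,
      0 ≤ D → ∃ N, Q N ∧ ∃ Y : Submodule ℝ X, Y ≤ W ∧ IsClosed (Y : Set X) ∧
        ¬ FiniteDimensional ℝ Y ∧ P Y D N)
    (W : Submodule ℝ X) (hWc : IsClosed (W : Set X)) (hW : ¬ FiniteDimensional ℝ W) :
    ∃ V : Submodule ℝ X, V ≤ W ∧ IsClosed (V : Set X) ∧ ¬ FiniteDimensional ℝ V ∧
      ∀ D : ℕ, ∃ N, Q N ∧ P V D N := by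
  classical
  -- a decreasing sequence
  let S := {Y : Submodule ℝ X // Y ≤ W ∧ IsClosed (Y : Set X) ∧ ¬ FiniteDimensional ℝ Y}
  have hnext : ∀ (k : ℕ) (Y : S), ∃ Y' : S, Y'.1 ≤ Y.1 ∧ ∃ N, Q N ∧ P Y'.1 k N := by
    intro k Y
    obtain ⟨N, hN, Y', h1, h2, h3, h4⟩ := hex Y.1 Y.2.2.1 Y.2.2.2 k (Nat.cast_nonneg k)
    exact ⟨⟨Y', h1.trans Y.2.1, h2, h3⟩, h1, N, hN, h4⟩
  choose nx hnx1 hnx2 using hnext
  let T : ℕ → S := fun k => Nat.rec ⟨W, le_rfl, hWc, hW⟩ (fun k Y => nx k Y) k
  have hTs : ∀ k, T (k + 1) = nx k (T k) := fun k => rfl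
  have hTmono : ∀ i j, i ≤ j → (T j).1 ≤ (T i).1 := by
    intro i j hij
    induction hij with
    | refl => exact le_rfl
    | step _ ih => exact (hnx1 _ _).trans ih
  -- vectors
  obtain ⟨f, hf1, hf2⟩ := exists_seq_of_forall_finset_exists
    (α := ℕ × X × (X →L[ℝ] ℝ))
    (fun t => t.2.1 ∈ (T t.1).1 ∧ t.2.2 t.2.1 = 1)
    (fun s t => s.1 < t.1 ∧ s.2.2 t.2.1 = 0)
    (by
      intro s _
      set m := s.sup (fun t => t.1) + 1 with hm
      obtain ⟨w, hw, hw1, hwF⟩ := own_vec (T m).1 (T m).2.2.2
        (s.image fun t => (t.2.2 : X →ₗ[ℝ] ℝ))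
      obtain ⟨g', hg1, hg2⟩ := exists_dual_vector ℝ w (by
        rw [hw1]
        exact one_ne_zero)
      refine ⟨(m, w, g'), ⟨hw, ?_⟩, fun t ht => ⟨?_, hwF _ (Finset.mem_image_of_mem
            (fun t : ℕ × X × (X →L[ℝ] ℝ) => (t.2.2 : X →ₗ[ℝ] ℝ)) ht)⟩⟩
      · show g' w = 1
        rw [hg2, hw1]
        simp
      · exact Nat.lt_succ_of_le (Finset.le_sup (f := fun t : ℕ × X × (X →L[ℝ] ℝ) => t.1) ht))
  have hidx : ∀ k, k ≤ (f k).1 := by
    intro k
    induction k with
    | zero => exact Nat.zero_le _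
    | succ k ih => exact Nat.succ_le_of_lt (lt_of_le_of_lt ih (hf2 k (k + 1) (Nat.lt_succ_self k)).1)
  set w : ℕ → X := fun k => (f k).2.1 with hw
  have hwT : ∀ k, w k ∈ (T k).1 := fun k => hTmono _ _ (hidx k) (hf1 k).1
  have hli : LinearIndependent ℝ w := by
    have hinj : Function.Injective (Finsupp.linearCombination ℝ w) := by
      refine (injective_iff_map_eq_zero _).mpr fun a ha => ?_
      by_contra hne
      obtain ⟨i₀, hi₀⟩ := Finsupp.support_nonempty_iff.mpr hne
      set i := a.support.min' ⟨i₀, hi₀⟩ with hi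
      have hia : i ∈ a.support := min'_mem _ _
      have h1 : (f i).2.2 (Finsupp.linearCombination ℝ w a) = a i := by
        have e : Finsupp.linearCombination ℝ w a = ∑ j ∈ a.support, a j • w j := by
          rw [Finsupp.linearCombination_apply]; rfl
        rw [e, map_sum, Finset.sum_eq_single i]
        · rw [map_smul, smul_eq_mul, (hf1 i).2, mul_one]
        · intro j hj hji
          have hij : i < j := lt_of_le_of_ne (min'_le _ _ hj) (Ne.symm hji)
          rw [map_smul, (hf2 i j hij).2, smul_zero]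
        · intro hn
          exact absurd hia hn
      rw [ha, map_zero] at h1
      exact Finsupp.mem_support_iff.1 hia h1.symm
    exact hinj
  -- the diagonal space
  set V₀ : Submodule ℝ X := Submodule.span ℝ (Set.range w) with hV₀
  have hVle : V₀.topologicalClosure ≤ W := by
    apply Submodule.topologicalClosure_minimal _ _ hWc
    rw [hV₀, Submodule.span_le]
    rintro _ ⟨k, rfl⟩
    exact (T k).2.1 (hwT k)
  have hVinf : ¬ FiniteDimensional ℝ V₀.topologicalClosure := by
    intro hfd
    have h1 : FiniteDimensional ℝ V₀ :=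
      Submodule.finiteDimensional_of_le (Submodule.le_topologicalClosure V₀)
    have hli2 := linearIndependent_span hli
    have : Module.Finite ℝ (Submodule.span ℝ (Set.range w)) := h1
    have h2 : Finite ℕ := hli2.finite
    exact not_finite ℕ
  refine ⟨V₀.topologicalClosure, hVle, Submodule.isClosed_topologicalClosure _, hVinf, ?_⟩
  intro k
  obtain ⟨N, hN, hPN⟩ := hnx2 k (T k)
  refine ⟨N, hN, ?_⟩
  rw [hP] at hPN ⊢
  intro Z hZV hZc hZ
  -- `V ≤ T (k+1) + span of w 0, …, w k`
  set F : Submodule ℝ X := Submodule.span ℝ ((Finset.range (k + 1)).image w : Set X) with hF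
  have hFfd : FiniteDimensional ℝ F := FiniteDimensional.span_finset ℝ _
  have hsum : V₀.topologicalClosure ≤ (T (k + 1)).1 ⊔ F := by
    have hcl : IsClosed (((T (k + 1)).1 ⊔ F : Submodule ℝ X) : Set X) := by
      exact Submodule.isClosed_sup_finiteDimensional _ _ (T (k + 1)).2.2.1
    apply Submodule.topologicalClosure_minimal _ _ hcl
    rw [hV₀, Submodule.span_le]
    rintro _ ⟨j, rfl⟩
    rcases Nat.lt_or_ge j (k + 1) with hj | hj
    · exact Submodule.mem_sup_right (Submodule.subset_span (by
        rw [Finset.mem_coe]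
        exact Finset.mem_image_of_mem w (mem_range.2 hj)))
    · exact Submodule.mem_sup_left (hTmono _ _ hj (hwT j))
  -- `Z ⊓ T (k+1)` is infinite dimensional
  have hZ' : ¬ FiniteDimensional ℝ (Z ⊓ (T (k + 1)).1 : Submodule ℝ X) := by
    intro hfd
    apply hZ
    have hZfg : Z.FG := by
      apply Submodule.fg_of_fg_map_of_fg_inf_ker (T (k + 1)).1.mkQ
      · have h1 : Z.map (T (k + 1)).1.mkQ ≤ F.map (T (k + 1)).1.mkQ := by
          refine (Submodule.map_mono (hZV.trans hsum)).trans ?_
          rw [Submodule.map_sup, Submodule.mkQ_map_self, bot_sup_eq]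
        have h2 : FiniteDimensional ℝ (F.map (T (k + 1)).1.mkQ) := inferInstance
        have h3 : FiniteDimensional ℝ (Z.map (T (k + 1)).1.mkQ) :=
          Submodule.finiteDimensional_of_le h1
        exact (Submodule.fg_iff_finiteDimensional _).2 h3
      · rw [Submodule.ker_mkQ]
        exact (Submodule.fg_iff_finiteDimensional _).2 hfd
    exact (Submodule.fg_iff_finiteDimensional _).1 hZfg
  obtain ⟨z, hz, t, ht, hzt⟩ := hPN (Z ⊓ (T (k + 1)).1) (by rw [← hTs]; exact inf_le_right)
    (hZc.inter (T (k + 1)).2.2.1) hZ'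
  exact ⟨z, hz.1, t, ht.1, hzt⟩

end

end Pool.Agent.Lib_helper25.AD
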